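import Pool.Agent.helper52.FS.SpecD

/-!
# FS, row NLT: `Γ` is not conjugate into the lower triangular matrices
-/

open scoped MatrixGroups ContDiff Topology UpperHalfPlane ComplexConjugate
open UpperHalfPlane MeasureTheory Filter Set

set_option autoImplicit false

namespace Pool.Agent.FS

open Pool.Agent.RS
open Pool.Agent.EN (XG MG mkX mkM fl pr)

theorem NLT_mul00 (x y : SL(2, ℝ)) (hx : x.1 0 1 = 0) : (x * y).1 0 0 = x.1 0 0 * y.1 0 0 := by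
  rw [Matrix.SpecialLinearGroup.coe_mul, Matrix.mul_apply, Fin.sum_univ_two, hx, zero_mul, add_zero]

theorem NLT_det (x : SL(2, ℝ)) (hx : x.1 0 1 = 0) : x.1 0 0 * x.1 1 1 = 1 := by
  have h := x.2
  rw [Matrix.det_fin_two, hx, zero_mul, sub_zero] at h
  exact h

/-- no parabolic elements -/
theorem NLT_par (hGLC : RS.GLC_stmt) (hXDS : EN.XDS_stmt) (Γ : Subgroup SL(2, ℝ)) (h0 : SL(2, ℝ)) (hΓ : QU.SurfaceGroup Γ) (γ : Γ)
    (h01 : (h0⁻¹ * (γ : SL(2, ℝ)) * h0).1 0 1 = 0) (h00 : (h0⁻¹ * (γ : SL(2, ℝ)) * h0).1 0 0 = 1) : γ = 1 := by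
  obtain ⟨ε, hε, h⟩ := hXDS Γ hΓ
  obtain ⟨u, hu⟩ : ∃ u : ℝ, u = (h0⁻¹ * (γ : SL(2, ℝ)) * h0).1 1 0 := ⟨_, rfl⟩
  have hm : h0⁻¹ * (γ : SL(2, ℝ)) * h0 = lM u := by
    have h11 := NLT_det _ h01
    rw [h00, one_mul] at h11
    apply Subtype.ext
    ext i j
    fin_cases i <;> fin_cases j
    · exact h00
    · exact h01
    · exact hu.symm
    · exact h11
  have hl : ∀ u t : ℝ, lM u * aM t = aM t * lM (Real.exp t * u) := hGLC.2.2.2.2.2.2.2.2.2.2.2.2.2.2.2.2.2.2.1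
  obtain ⟨t, ht⟩ : ∃ t : ℝ, t = Real.log (ε / (|u| + 1)) := ⟨_, rfl⟩
  have hu1 : 0 < |u| + 1 := by positivity
  have het : Real.exp t = ε / (|u| + 1) := by rw [ht, Real.exp_log (by positivity)]
  refine h (h0 * aM t) γ ?_
  have e1 : (h0 * aM t)⁻¹ * (γ : SL(2, ℝ)) * (h0 * aM t) = lM (Real.exp t * u) := by
    have : (h0 * aM t)⁻¹ * (γ : SL(2, ℝ)) * (h0 * aM t) = (aM t)⁻¹ * ((h0⁻¹ * (γ : SL(2, ℝ)) * h0) * aM t) := by group
    rw [this, hm, hl, inv_mul_cancel_left]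
  rw [e1]
  have e2 : |Real.exp t * u| < ε := by
    rw [abs_mul, abs_of_pos (Real.exp_pos t), het, div_mul_eq_mul_div, div_lt_iff₀ hu1]
    nlinarith [abs_nonneg u]
  intro i j
  fin_cases i <;> fin_cases j
  · simpa [lM] using hε
  · simpa [lM] using hε
  · simpa [lM] using e2
  · simpa [lM] using hε

theorem NLT_proof (hGLC : RS.GLC_stmt) (hXDS : EN.XDS_stmt) : NLT_stmt := by
  intro Γ h0 hΓ
  by_contra hcon
  have hlow : ∀ γ : Γ, (h0⁻¹ * (γ : SL(2, ℝ)) * h0).1 0 1 = 0 := by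
    intro γ
    by_contra h
    exact hcon ⟨γ, h⟩
  have hpar : ∀ γ : Γ, (h0⁻¹ * (γ : SL(2, ℝ)) * h0).1 0 0 = 1 → γ = 1 := fun γ h => NLT_par hGLC hXDS Γ h0 hΓ γ (hlow γ) h
  have hmul : ∀ γ γ' : Γ, (h0⁻¹ * ((γ * γ' : Γ) : SL(2, ℝ)) * h0).1 0 0 = (h0⁻¹ * (γ : SL(2, ℝ)) * h0).1 0 0 * (h0⁻¹ * (γ' : SL(2, ℝ)) * h0).1 0 0 := by
    intro γ γ'
    rw [← NLT_mul00 _ _ (hlow γ)]
    rw [Subgroup.coe_mul]
    group
  have hone : (h0⁻¹ * ((1 : Γ) : SL(2, ℝ)) * h0).1 0 0 = 1 := by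
    rw [Subgroup.coe_one, mul_one, inv_mul_cancel]
    rfl
  -- the group is abelian
  have hcomm : ∀ γ γ' : Γ, γ * γ' = γ' * γ := by
    intro γ γ'
    have h1 : γ * γ' * (γ' * γ)⁻¹ = 1 := by
      apply hpar
      have h2 := hmul (γ * γ' * (γ' * γ)⁻¹) (γ' * γ)
      rw [inv_mul_cancel_right] at h2
      rw [hmul γ γ', hmul γ' γ] at h2
      have h3 : (h0⁻¹ * ((γ : Γ) : SL(2, ℝ)) * h0).1 0 0 ≠ 0 := by
        intro h
        have := NLT_det _ (hlow γ)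
        rw [h, zero_mul] at this
        exact zero_ne_one this
      have h4 : (h0⁻¹ * ((γ' : Γ) : SL(2, ℝ)) * h0).1 0 0 ≠ 0 := by
        intro h
        have := NLT_det _ (hlow γ')
        rw [h, zero_mul] at this
        exact zero_ne_one this
      have h5 : (h0⁻¹ * ((γ' : Γ) : SL(2, ℝ)) * h0).1 0 0 * (h0⁻¹ * ((γ : Γ) : SL(2, ℝ)) * h0).1 0 0 ≠ 0 := mul_ne_zero h4 h3
      apply mul_right_cancel₀ h5
      rw [one_mul, ← h2]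
      ring
    exact mul_inv_eq_one.1 h1
  obtain ⟨K, hK, hcov⟩ := hΓ.cocompact
  -- a nontrivial element
  obtain ⟨γ0, hγ0⟩ : ∃ γ : Γ, γ ≠ 1 := by
    by_contra h
    have h1 : ∀ γ : Γ, γ = 1 := by
      intro γ
      by_contra h2
      exact h ⟨γ, h2⟩
    have h2 : K = univ := by
      apply eq_univ_of_forall
      intro z
      obtain ⟨γ, hγ⟩ := hcov z
      rw [h1 γ, one_smul] at hγ
      exact hγ
    rw [h2] at hK
    exact noncompact_univ ℍ hK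
  obtain ⟨p, hp⟩ : ∃ p : ℝ, p = (h0⁻¹ * (γ0 : SL(2, ℝ)) * h0).1 0 0 := ⟨_, rfl⟩
  obtain ⟨r, hr⟩ : ∃ r : ℝ, r = (h0⁻¹ * (γ0 : SL(2, ℝ)) * h0).1 1 0 := ⟨_, rfl⟩
  obtain ⟨s, hs⟩ : ∃ s : ℝ, s = (h0⁻¹ * (γ0 : SL(2, ℝ)) * h0).1 1 1 := ⟨_, rfl⟩
  have hps : p * s = 1 := by rw [hp, hs]; exact NLT_det _ (hlow γ0)
  have hp1 : p ≠ 1 := fun h => hγ0 (hpar γ0 (by rw [← hp, h]))
  have hp2 : p ≠ -1 := by
    intro h
    have h1 : γ0 * γ0 = 1 := by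
      apply hpar
      rw [hmul, ← hp, h]
      norm_num
    have hs1 : s = -1 := by
      rw [h] at hps
      linarith
    have h2 : (h0⁻¹ * (γ0 : SL(2, ℝ)) * h0) * (h0⁻¹ * (γ0 : SL(2, ℝ)) * h0) = 1 := by
      have e : (h0⁻¹ * (γ0 : SL(2, ℝ)) * h0) * (h0⁻¹ * (γ0 : SL(2, ℝ)) * h0) = h0⁻¹ * ((γ0 : SL(2, ℝ)) * (γ0 : SL(2, ℝ))) * h0 := by group
      rw [e, ← Subgroup.coe_mul, h1, Subgroup.coe_one, mul_one, inv_mul_cancel]
    have h3 : ((h0⁻¹ * (γ0 : SL(2, ℝ)) * h0) * (h0⁻¹ * (γ0 : SL(2, ℝ)) * h0)).1 1 0 = 0 := by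
      rw [h2]
      rfl
    rw [Matrix.SpecialLinearGroup.coe_mul, Matrix.mul_apply, Fin.sum_univ_two, ← hr, ← hp, ← hs, h, hs1] at h3
    have hr0 : r = 0 := by linarith
    have h4 : h0⁻¹ * (γ0 : SL(2, ℝ)) * h0 = -1 := by
      apply Subtype.ext
      rw [Matrix.SpecialLinearGroup.coe_neg, Matrix.SpecialLinearGroup.coe_one]
      ext i j
      fin_cases i <;> fin_cases j
      · show (h0⁻¹ * (γ0 : SL(2, ℝ)) * h0).1 0 0 = _
        rw [← hp, h]; simp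
      · show (h0⁻¹ * (γ0 : SL(2, ℝ)) * h0).1 0 1 = _
        rw [hlow γ0]; simp
      · show (h0⁻¹ * (γ0 : SL(2, ℝ)) * h0).1 1 0 = _
        rw [← hr, hr0]; simp
      · show (h0⁻¹ * (γ0 : SL(2, ℝ)) * h0).1 1 1 = _
        rw [← hs, hs1]; simp
    have h5 : (γ0 : SL(2, ℝ)) = -1 := by
      have : (γ0 : SL(2, ℝ)) = h0 * (h0⁻¹ * (γ0 : SL(2, ℝ)) * h0) * h0⁻¹ := by group
      rw [this, h4, mul_neg, mul_one, neg_mul, mul_inv_cancel]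
    apply hγ0
    apply hΓ.free γ0 I
    rw [Subgroup.smul_def, h5]
    apply UpperHalfPlane.ext
    rw [UpperHalfPlane.coe_specialLinearGroup_apply]
    simp
  -- boundedness of the conjugates
  have hcomp := hGLC.2.2.1 K hK
  have hent : Continuous fun k : SL(2, ℝ) => (k⁻¹ * (γ0 : SL(2, ℝ)) * k).1 1 0 := by
    have h1 : Continuous fun k : SL(2, ℝ) => k⁻¹ * (γ0 : SL(2, ℝ)) * k := (continuous_inv.mul continuous_const).mul continuous_id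
    exact (continuous_subtype_val.comp h1).matrix_elem 1 0
  obtain ⟨B, hB⟩ := hcomp.bddAbove_image hent.continuousOn
  have key : ∀ v : ℝ, r + v * (s - p) ≤ B := by
    intro v
    obtain ⟨γ, hγ⟩ := hcov ((h0 * lM v) • I)
    have hk : ((γ : SL(2, ℝ)) * (h0 * lM v)) ∈ {g : SL(2, ℝ) | g • I ∈ K} := by
      show ((γ : SL(2, ℝ)) * (h0 * lM v)) • I ∈ K
      rw [mul_smul]
      rw [Subgroup.smul_def] at hγ
      exact hγ
    have h1 := hB ⟨_, hk, rfl⟩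
    have hc : (γ : SL(2, ℝ))⁻¹ * (γ0 : SL(2, ℝ)) * (γ : SL(2, ℝ)) = (γ0 : SL(2, ℝ)) := by
      have h2 := hcomm γ0 γ
      have h3 : (γ0 : SL(2, ℝ)) * (γ : SL(2, ℝ)) = (γ : SL(2, ℝ)) * (γ0 : SL(2, ℝ)) := by
        rw [← Subgroup.coe_mul, ← Subgroup.coe_mul, h2]
      rw [mul_assoc, h3, inv_mul_cancel_left]
    have e : ((γ : SL(2, ℝ)) * (h0 * lM v))⁻¹ * (γ0 : SL(2, ℝ)) * ((γ : SL(2, ℝ)) * (h0 * lM v)) = (lM v)⁻¹ * ((h0⁻¹ * (γ0 : SL(2, ℝ)) * h0) * lM v) := by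
      have e1 : ((γ : SL(2, ℝ)) * (h0 * lM v))⁻¹ * (γ0 : SL(2, ℝ)) * ((γ : SL(2, ℝ)) * (h0 * lM v)) = (lM v)⁻¹ * ((h0⁻¹ * ((γ : SL(2, ℝ))⁻¹ * (γ0 : SL(2, ℝ)) * (γ : SL(2, ℝ))) * h0) * lM v) := by group
      rw [e1, hc]
    have e3 : (((γ : SL(2, ℝ)) * (h0 * lM v))⁻¹ * (γ0 : SL(2, ℝ)) * ((γ : SL(2, ℝ)) * (h0 * lM v))).1 1 0 = r + v * (s - p) := by
      rw [e]
      have e4 : (lM v)⁻¹ = lM (-v) := by
        have hadd : ∀ s t : ℝ, lM (s + t) = lM s * lM t := hGLC.2.2.2.2.2.2.2.2.2.2.2.2.1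
        have h0' : lM 0 = 1 := by
          apply Subtype.ext
          show !![1, 0; (0 : ℝ), 1] = 1
          rw [Matrix.one_fin_two]
        rw [inv_eq_iff_mul_eq_one, ← hadd, add_neg_cancel, h0']
      rw [e4, Matrix.SpecialLinearGroup.coe_mul, Matrix.mul_apply, Fin.sum_univ_two, Matrix.SpecialLinearGroup.coe_mul, Matrix.mul_apply, Fin.sum_univ_two, Matrix.mul_apply, Fin.sum_univ_two, ← hr, ← hp, ← hs, hlow γ0]
      simp [lM]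
      ring
    have h6 : (((γ : SL(2, ℝ)) * (h0 * lM v))⁻¹ * (γ0 : SL(2, ℝ)) * ((γ : SL(2, ℝ)) * (h0 * lM v))).1 1 0 ≤ B := h1
    rw [e3] at h6
    exact h6
  have hsp : s - p ≠ 0 := by
    intro h
    have h1 : s = p := by linarith
    rw [h1] at hps
    rcases mul_self_eq_one_iff.1 hps with h2 | h2
    · exact hp1 h2
    · exact hp2 h2
  have h7 := key ((B - r + 1) / (s - p))
  rw [div_mul_cancel₀ _ hsp] at h7
  linarith

end Pool.Agent.FS
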