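import Pool.Agent.helper78.FS.Spec

/-!
# fs:PF3 (MP_55808c_co): propagation of the perfect colouring (helper99)
-/

namespace Pool.Agent.helper78.FS

open Finset Real
open Classical

noncomputable section

theorem PF3_aff {V : Type} (G : V → V → Prop) (c : V → Fin 7) (σ σ' : Fin 7 → ZMod 7) (a b : ZMod 7) (ha : a ≠ 0)
    (h : ∀ k, σ' k = a * σ k + b) (u : V) (hP : Perf G c σ' u) : Perf G c σ u := by
  have : Fact (Nat.Prime 7) := ⟨by norm_num⟩
  intro x y hx hy hxy
  rcases hP x y hx hy hxy with h1 | h1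
  · left
    rw [h, h, h] at h1
    apply mul_left_cancel₀ ha
    linear_combination h1
  · right
    rw [h, h, h] at h1
    apply mul_left_cancel₀ ha
    linear_combination h1

theorem PF3 : PF3_stmt := by
  intro h1 h2 V G c v w σ hsym hirr hv hw hvw hσ hPv hPn
  obtain ⟨σ', hσ', hPw', hPn'⟩ := h1 V G c w hsym hirr hw
  obtain ⟨a, b, ha, hab⟩ := h2 V G c v w σ σ' hsym hirr hv.1 hw.1 hvw hσ hσ' hPv (hPn w hvw) (hPn' v (hsym v w hvw)) hPw'
  exact ⟨PF3_aff G c σ σ' a b ha hab w hPw', fun u hu => PF3_aff G c σ σ' a b ha hab u (hPn' u hu)⟩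

end

end Pool.Agent.helper78.FS
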