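import Pool.Agent.helper81.FS.SpecU

/-!
# FS, row U2
-/

set_option autoImplicit false

namespace Pool.Agent.helper81.FS

open MeasureTheory Set Complex

theorem U2_aux (r : ℝ → ℂ) (hr : Integrable r) (c' L y : ℝ) (hc : 0 < c') (hy : 0 < y) (hL : y ≤ L) (E : ℝ → ℂ)
    (hE : ∀ t : ℝ, ‖E t‖ = Real.exp (-(t * y))) :
    ‖∫ t in Ioi (0 : ℝ), E t * r t‖ ≤ ((∫ t, ‖r t‖) + Real.exp (c' * L) * ∫ t in Icc (-c') c', ‖r t‖) * Real.exp (-(c' * y)) := by
  have hind : Integrable (Set.indicator (Icc (-c') c') fun t => ‖r t‖) := hr.norm.indicator measurableSet_Icc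
  have hG : Integrable fun t => Real.exp (-(c' * y)) * ‖r t‖ + Real.exp (c' * L) * Real.exp (-(c' * y)) * Set.indicator (Icc (-c') c') (fun t => ‖r t‖) t :=
    (hr.norm.const_mul _).add (hind.const_mul _)
  have hG0 : ∀ t, 0 ≤ Real.exp (-(c' * y)) * ‖r t‖ + Real.exp (c' * L) * Real.exp (-(c' * y)) * Set.indicator (Icc (-c') c') (fun t => ‖r t‖) t := by
    intro t
    have h1 : 0 ≤ Set.indicator (Icc (-c') c') (fun t => ‖r t‖) t := Set.indicator_nonneg (fun _ _ => norm_nonneg _) _
    have h2 := Real.exp_pos (-(c' * y))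
    have h3 := Real.exp_pos (c' * L)
    positivity
  have hLc : c' * y ≤ c' * L := mul_le_mul_of_nonneg_left hL hc.le
  calc ‖∫ t in Ioi (0 : ℝ), E t * r t‖ ≤ ∫ t in Ioi (0 : ℝ), ‖E t * r t‖ := norm_integral_le_integral_norm _
    _ ≤ ∫ t in Ioi (0 : ℝ), (Real.exp (-(c' * y)) * ‖r t‖ + Real.exp (c' * L) * Real.exp (-(c' * y)) * Set.indicator (Icc (-c') c') (fun t => ‖r t‖) t) := by
        refine integral_mono_of_nonneg (Filter.Eventually.of_forall fun t => norm_nonneg _) hG.integrableOn ?_
        refine (ae_restrict_mem measurableSet_Ioi).mono fun t ht => ?_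
        have ht0 : 0 < t := ht
        show ‖E t * r t‖ ≤ Real.exp (-(c' * y)) * ‖r t‖ + Real.exp (c' * L) * Real.exp (-(c' * y)) * Set.indicator (Icc (-c') c') (fun t => ‖r t‖) t
        rw [norm_mul, hE t]
        by_cases htc : t ≤ c'
        · have hmem : t ∈ Icc (-c') c' := ⟨by linarith, htc⟩
          rw [Set.indicator_of_mem hmem, ← Real.exp_add]
          have h1 : Real.exp (-(t * y)) ≤ 1 := Real.exp_le_one_iff.2 (by have := mul_pos ht0 hy; linarith)
          have h2 : 1 ≤ Real.exp (c' * L + -(c' * y)) := Real.one_le_exp (by linarith)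
          have h3 : 0 ≤ Real.exp (-(c' * y)) * ‖r t‖ := by positivity
          calc Real.exp (-(t * y)) * ‖r t‖ ≤ Real.exp (c' * L + -(c' * y)) * ‖r t‖ := mul_le_mul_of_nonneg_right (h1.trans h2) (norm_nonneg _)
            _ ≤ _ := by linarith
        · have h1 : Real.exp (-(t * y)) ≤ Real.exp (-(c' * y)) := by
            apply Real.exp_le_exp.2
            have := mul_le_mul_of_nonneg_right (not_le.1 htc).le hy.le
            linarith
          have h2 : 0 ≤ Real.exp (c' * L) * Real.exp (-(c' * y)) * Set.indicator (Icc (-c') c') (fun t => ‖r t‖) t := by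
            have h4 : 0 ≤ Set.indicator (Icc (-c') c') (fun t => ‖r t‖) t := Set.indicator_nonneg (fun _ _ => norm_nonneg _) _
            positivity
          calc Real.exp (-(t * y)) * ‖r t‖ ≤ Real.exp (-(c' * y)) * ‖r t‖ := mul_le_mul_of_nonneg_right h1 (norm_nonneg _)
            _ ≤ _ := by linarith
    _ ≤ ∫ t, (Real.exp (-(c' * y)) * ‖r t‖ + Real.exp (c' * L) * Real.exp (-(c' * y)) * Set.indicator (Icc (-c') c') (fun t => ‖r t‖) t) :=
        setIntegral_le_integral hG (Filter.Eventually.of_forall hG0)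
    _ = ((∫ t, ‖r t‖) + Real.exp (c' * L) * ∫ t in Icc (-c') c', ‖r t‖) * Real.exp (-(c' * y)) := by
        rw [integral_add (hr.norm.const_mul _) (hind.const_mul _), integral_const_mul, integral_const_mul, integral_indicator measurableSet_Icc]
        ring

theorem U2_proof (h1 : U1_stmt) : U2_stmt := by
  intro Q q hQ hQs hq hFT c' L hc z hz hzL
  obtain ⟨hpos, hneg⟩ := h1 Q q hQ hQs hFT z
  rcases lt_or_gt_of_ne hz with hlt | hgt
  · have e := hneg hlt
    have hy : |z.im| = -z.im := abs_of_neg hlt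
    rw [hy] at hzL ⊢
    rw [e, norm_mul, norm_neg, Complex.norm_I, one_mul]
    refine U2_aux q hq c' L (-z.im) hc (by linarith) hzL (fun t => cexp (-(I * t * z))) ?_
    intro t
    rw [Complex.norm_exp]
    congr 1
    simp
  · have e := hpos hgt
    have hy : |z.im| = z.im := abs_of_pos hgt
    rw [hy] at hzL ⊢
    rw [e, norm_mul, Complex.norm_I, one_mul]
    have hE : ∀ t : ℝ, ‖cexp (I * t * z)‖ = Real.exp (-(t * z.im)) := by
      intro t
      rw [Complex.norm_exp]
      congr 1
      simp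
    have h2 := U2_aux (fun t => q (-t)) hq.comp_neg c' L z.im hc hgt hzL (fun t => cexp (I * t * z)) hE
    have e1 : ∫ t, ‖q (-t)‖ = ∫ t, ‖q t‖ := integral_neg_eq_self (fun t => ‖q t‖) volume
    have e2 : ∫ t in Icc (-c') c', ‖q (-t)‖ = ∫ t in Icc (-c') c', ‖q t‖ := by
      rw [← integral_indicator measurableSet_Icc, ← integral_indicator measurableSet_Icc, ← integral_neg_eq_self (Set.indicator (Icc (-c') c') fun t => ‖q t‖) volume]
      congr 1
      funext t
      by_cases ht : t ∈ Icc (-c') c'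
      · have ht' : -t ∈ Icc (-c') c' := ⟨by linarith [ht.2], by linarith [ht.1]⟩
        rw [Set.indicator_of_mem ht, Set.indicator_of_mem ht']
      · have ht' : -t ∉ Icc (-c') c' := fun h => ht ⟨by linarith [h.2], by linarith [h.1]⟩
        rw [Set.indicator_of_notMem ht, Set.indicator_of_notMem ht']
    rw [e1, e2] at h2
    exact h2

end Pool.Agent.helper81.FS
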